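import Pool.Agent.L7h50.PI.Cpc

/-!
# The three model spaces `CP²`, its one-point blowup and `S² × S²` are compact and connected
-/

set_option autoImplicit false

open Set Filter Topology Metric
open scoped ComplexConjugate

noncomputable section

namespace Pool.Agent.L7h32.SX

/-- Hermitian idempotent `n × n` matrices of trace one (rank one projections) -/
def Pr (n : ℕ) : Set (Fin n → Fin n → ℂ) := {P |
  (∀ i j, P j i = star (P i j)) ∧ (∀ i j, ∑ k, P i k * P k j = P i j) ∧ ∑ i, P i i = 1}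

/-- the projection onto the line of `v` -/
def vw {n : ℕ} (v : EuclideanSpace ℂ (Fin n)) : Fin n → Fin n → ℂ := fun i j => v i * conj (v j)

theorem vw_cont {n : ℕ} : Continuous (vw (n := n)) := by
  unfold vw
  fun_prop

theorem sum_sph {n : ℕ} {v : EuclideanSpace ℂ (Fin n)} (hv : ‖v‖ = 1) :
    ∑ i, v i * conj (v i) = 1 := by
  have h := EuclideanSpace.norm_sq_eq v
  rw [hv] at h
  have h1 : ∀ i, v i * conj (v i) = ((‖v i‖ ^ 2 : ℝ) : ℂ) := by
    intro i
    rw [Complex.mul_conj, Complex.normSq_eq_norm_sq]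
  rw [Finset.sum_congr rfl fun i _ => h1 i, ← Complex.ofReal_sum, ← h]
  norm_num

theorem norm_of_sum {n : ℕ} {v : EuclideanSpace ℂ (Fin n)} (hvv : ∑ i, v i * conj (v i) = 1) :
    ‖v‖ = 1 := by
  have h := EuclideanSpace.norm_sq_eq v
  have h5 : ∀ i, v i * conj (v i) = ((‖v i‖ ^ 2 : ℝ) : ℂ) := by
    intro i
    rw [Complex.mul_conj, Complex.normSq_eq_norm_sq]
  rw [Finset.sum_congr rfl fun i _ => h5 i, ← Complex.ofReal_sum] at hvv
  have h6 : ∑ i, ‖v i‖ ^ 2 = 1 := by exact_mod_cast hvv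
  rw [h6] at h
  have h7 := norm_nonneg v
  nlinarith

theorem vw_mem {n : ℕ} {v : EuclideanSpace ℂ (Fin n)} (hv : ‖v‖ = 1) : vw v ∈ Pr n := by
  have h1 := sum_sph hv
  refine ⟨fun i j => ?_, fun i j => ?_, h1⟩
  · show v j * conj (v i) = conj (v i * conj (v j))
    rw [map_mul, Complex.conj_conj, mul_comm]
  · show ∑ k, (v i * conj (v k)) * (v k * conj (v j)) = v i * conj (v j)
    have h2 : ∀ k, (v i * conj (v k)) * (v k * conj (v j)) =
      (v i * conj (v j)) * (v k * conj (v k)) := fun k => by ring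
    rw [Finset.sum_congr rfl fun k _ => h2 k, ← Finset.mul_sum, h1, mul_one]

theorem diag {n : ℕ} {P : Fin n → Fin n → ℂ} (hP : P ∈ Pr n) (i : Fin n) :
    P i i = (((P i i).re : ℝ) : ℂ) ∧ (P i i).re = ∑ k, ‖P i k‖ ^ 2 := by
  obtain ⟨h1, h2, -⟩ := hP
  have h3 : P i i = ((∑ k, ‖P i k‖ ^ 2 : ℝ) : ℂ) := by
    rw [← h2 i i, Complex.ofReal_sum]
    refine Finset.sum_congr rfl fun k _ => ?_
    rw [h1 i k]
    show P i k * conj (P i k) = _
    rw [Complex.mul_conj, Complex.normSq_eq_norm_sq]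
  constructor
  · rw [h3, Complex.ofReal_re]
  · rw [h3, Complex.ofReal_re]

theorem vw_surj {n : ℕ} {P : Fin n → Fin n → ℂ} (hP : P ∈ Pr n) :
    ∃ v : EuclideanSpace ℂ (Fin n), ‖v‖ = 1 ∧ vw v = P := by
  have hd := diag hP
  obtain ⟨h1, h2, h3⟩ := hP
  have hne : ∃ j, P j j ≠ 0 := by
    by_contra h
    push Not at h
    rw [Finset.sum_eq_zero fun j _ => h j] at h3
    exact zero_ne_one h3
  obtain ⟨j, hj⟩ := hne
  have hpos : 0 < (P j j).re := by
    have h4 : 0 ≤ (P j j).re := by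
      rw [(hd j).2]
      positivity
    refine lt_of_le_of_ne h4 fun h => hj ?_
    rw [(hd j).1, ← h]
    simp
  obtain ⟨r, hr⟩ : ∃ r : ℝ, r = √(P j j).re := ⟨_, rfl⟩
  have hr0 : 0 < r := by rw [hr]; exact Real.sqrt_pos.2 hpos
  have hrr : (r : ℂ) * r = P j j := by
    rw [← Complex.ofReal_mul, hr, Real.mul_self_sqrt hpos.le, ← (hd j).1]
  have hrc : (r : ℂ) ≠ 0 := by exact_mod_cast hr0.ne'
  obtain ⟨v, hv⟩ : ∃ v : EuclideanSpace ℂ (Fin n), ∀ i, v i = P i j / r :=
    ⟨WithLp.toLp 2 (fun i => P i j / r), fun i => rfl⟩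
  have hcv : ∀ i, conj (v i) = P j i / r := by
    intro i
    rw [hv, map_div₀, Complex.conj_ofReal]
    congr 1
    exact (h1 i j).symm
  have hvv : ∑ i, v i * conj (v i) = 1 := by
    have h5 : ∀ i, v i * conj (v i) = (P j i * P i j) / (r * r) := by
      intro i
      rw [hcv, hv]
      field_simp
    rw [Finset.sum_congr rfl fun i _ => h5 i, ← Finset.sum_div, h2 j j, hrr, div_self hj]
  have hPv : ∀ i, ∑ k, P i k * v k = v i := by
    intro i
    have h5 : ∀ k, P i k * v k = (P i k * P k j) / r := fun k => by rw [hv]; ring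
    rw [Finset.sum_congr rfl fun k _ => h5 k, ← Finset.sum_div, h2 i j, hv]
  have hPv' : ∀ i, ∑ k, conj (v k) * P k i = conj (v i) := by
    intro i
    have h5 : ∀ k, conj (v k) * P k i = (P j k * P k i) / r := fun k => by rw [hcv]; ring
    rw [Finset.sum_congr rfl fun k _ => h5 k, ← Finset.sum_div, h2 j i, hcv]
  refine ⟨v, norm_of_sum hvv, ?_⟩
  have hz : ∑ i, ∑ k, (P i k - v i * conj (v k)) * conj (P i k - v i * conj (v k)) = 0 := by
    have h5 : ∀ i k, (P i k - v i * conj (v k)) * conj (P i k - v i * conj (v k)) =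
        P i k * P k i - conj (v i) * (P i k * v k) - v i * (conj (v k) * P k i) +
          (v i * conj (v i)) * (v k * conj (v k)) := by
      intro i k
      have : conj (P i k) = P k i := (h1 i k).symm
      rw [map_sub, map_mul, Complex.conj_conj, this]
      ring
    have h6 : ∀ i, ∑ k, (P i k - v i * conj (v k)) * conj (P i k - v i * conj (v k)) =
        P i i - v i * conj (v i) := by
      intro i
      rw [Finset.sum_congr rfl fun k _ => h5 i k, Finset.sum_add_distrib, Finset.sum_sub_distrib,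
        Finset.sum_sub_distrib, ← Finset.mul_sum, ← Finset.mul_sum, ← Finset.mul_sum, h2 i i, hPv,
        hPv', hvv]
      ring
    rw [Finset.sum_congr rfl fun i _ => h6 i, Finset.sum_sub_distrib, h3, hvv, sub_self]
  have hz2 : ∑ i, ∑ k, ‖P i k - v i * conj (v k)‖ ^ 2 = 0 := by
    have h5 : ∀ i k, (P i k - v i * conj (v k)) * conj (P i k - v i * conj (v k)) =
        ((‖P i k - v i * conj (v k)‖ ^ 2 : ℝ) : ℂ) := by
      intro i k
      rw [Complex.mul_conj, Complex.normSq_eq_norm_sq]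
    simp only [h5, ← Complex.ofReal_sum] at hz
    exact_mod_cast hz
  funext i k
  have h5 := (Finset.sum_eq_zero_iff_of_nonneg
    (fun i _ => Finset.sum_nonneg fun k _ => by positivity)).1 hz2 i (Finset.mem_univ i)
  have h6 := (Finset.sum_eq_zero_iff_of_nonneg (fun k _ => by positivity)).1 h5 k
    (Finset.mem_univ k)
  have h7 : P i k - v i * conj (v k) = 0 := by
    rw [← norm_eq_zero]
    exact pow_eq_zero_iff (two_ne_zero) |>.1 h6
  show v i * conj (v k) = P i k
  exact (sub_eq_zero.1 h7).symm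

/-- the unit sphere of `ℂⁿ⁺¹` -/
abbrev CS (n : ℕ) : Type := sphere (0 : EuclideanSpace ℂ (Fin (n + 1))) 1

theorem cs_conn (n : ℕ) : ConnectedSpace (CS n) := by
  have h1 : Module.finrank ℝ (EuclideanSpace ℂ (Fin (n + 1))) = 2 * (n + 1) := by
    rw [← Module.finrank_mul_finrank ℝ ℂ (EuclideanSpace ℂ (Fin (n + 1))),
      Complex.finrank_real_complex, finrank_euclideanSpace_fin]
  have h2 : (1 : Cardinal) < ((2 * (n + 1) : ℕ) : Cardinal) := by
    exact_mod_cast (by omega : 1 < 2 * (n + 1))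
  rw [← h1, Module.finrank_eq_rank] at h2
  exact Subtype.connectedSpace (isConnected_sphere h2 0 zero_le_one)

theorem of_surj {X Y : Type} [TopologicalSpace X] [TopologicalSpace Y] [CompactSpace X]
    [ConnectedSpace X] (f : X → Y) (hf : Continuous f) (hs : Function.Surjective f) :
    CompactSpace Y ∧ ConnectedSpace Y := by
  refine ⟨⟨?_⟩, hs.connectedSpace hf⟩
  rw [← hs.range_eq]
  exact isCompact_range hf

/-- complex projective spaces -/
theorem pr_top (n : ℕ) : CompactSpace (Pr (n + 1)) ∧ ConnectedSpace (Pr (n + 1)) := by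
  have := cs_conn n
  refine of_surj (fun v : CS n => (⟨vw v.1, vw_mem (by simp)⟩ : Pr (n + 1)))
    ((vw_cont.comp continuous_subtype_val).subtype_mk _) ?_
  rintro ⟨P, hP⟩
  obtain ⟨v, hv, h⟩ := vw_surj hP
  exact ⟨⟨v, by simpa using hv⟩, Subtype.ext h⟩

/-- the blowup of `CP²` in a point: the pairs of a line `L` in `ℂ³` and a line `ℓ` in `ℂ²` such that
the projection of `L` to `ℂ²` is contained in `ℓ` -/
def Bl : Set ((Fin 3 → Fin 3 → ℂ) × (Fin 2 → Fin 2 → ℂ)) := {p | p.1 ∈ Pr 3 ∧ p.2 ∈ Pr 2 ∧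
  ∀ (i : Fin 2) (j : Fin 3), ∑ k : Fin 2, p.2 i k * p.1 k.castSucc j = p.1 i.castSucc j}

/-- the parametrization of the blowup -/
def bv (u w : EuclideanSpace ℂ (Fin 2)) : EuclideanSpace ℂ (Fin 3) :=
  WithLp.toLp 2 ![w 0 * u 0, w 0 * u 1, w 1]

theorem bv_cont : Continuous fun p : EuclideanSpace ℂ (Fin 2) × EuclideanSpace ℂ (Fin 2) =>
    bv p.1 p.2 := by
  unfold bv
  refine (PiLp.continuous_toLp 2 _).comp (continuous_pi fun i => ?_)
  fin_cases i
  · show Continuous fun p : EuclideanSpace ℂ (Fin 2) × EuclideanSpace ℂ (Fin 2) => p.2 0 * p.1 0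
    fun_prop
  · show Continuous fun p : EuclideanSpace ℂ (Fin 2) × EuclideanSpace ℂ (Fin 2) => p.2 0 * p.1 1
    fun_prop
  · show Continuous fun p : EuclideanSpace ℂ (Fin 2) × EuclideanSpace ℂ (Fin 2) => p.2 1
    fun_prop

theorem bv_norm {u w : EuclideanSpace ℂ (Fin 2)} (hu : ‖u‖ = 1) (hw : ‖w‖ = 1) :
    ‖bv u w‖ = 1 := by
  have h1 := sum_sph hu
  have h2 := sum_sph hw
  rw [Fin.sum_univ_two] at h1 h2
  refine norm_of_sum ?_
  rw [Fin.sum_univ_three]
  show (w 0 * u 0) * conj (w 0 * u 0) + (w 0 * u 1) * conj (w 0 * u 1) + w 1 * conj (w 1) = 1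
  rw [map_mul, map_mul]
  linear_combination (w 0 * conj (w 0)) * h1 + h2

theorem bl_mem {u w : EuclideanSpace ℂ (Fin 2)} (hu : ‖u‖ = 1) (hw : ‖w‖ = 1) :
    (vw (bv u w), vw u) ∈ Bl := by
  refine ⟨vw_mem (bv_norm hu hw), vw_mem hu, fun i j => ?_⟩
  have h1 := sum_sph hu
  rw [Fin.sum_univ_two] at h1 ⊢
  show (u i * conj (u 0)) * ((w 0 * u 0) * conj (bv u w j)) +
    (u i * conj (u 1)) * ((w 0 * u 1) * conj (bv u w j)) = bv u w i.castSucc * conj (bv u w j)
  have h2 : bv u w i.castSucc = w 0 * u i := by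
    fin_cases i
    · rfl
    · rfl
  rw [h2]
  linear_combination (u i * w 0 * conj (bv u w j)) * h1

theorem bl_surj {p : (Fin 3 → Fin 3 → ℂ) × (Fin 2 → Fin 2 → ℂ)} (hp : p ∈ Bl) :
    ∃ u w : EuclideanSpace ℂ (Fin 2), ‖u‖ = 1 ∧ ‖w‖ = 1 ∧ (vw (bv u w), vw u) = p := by
  obtain ⟨P, Q⟩ := p
  obtain ⟨h1, h2, h3⟩ := hp
  obtain ⟨v, hv, rfl⟩ := vw_surj h1
  obtain ⟨u, hu, rfl⟩ := vw_surj h2
  have k1 := sum_sph hu
  have k2 := sum_sph hv
  rw [Fin.sum_univ_two] at k1
  rw [Fin.sum_univ_three] at k2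
  have h4 : ∀ i : Fin 2, u i * (conj (u 0) * v 0 + conj (u 1) * v 1) = v i.castSucc := by
    intro i
    have e : ∀ j : Fin 3, (u i * (conj (u 0) * v 0 + conj (u 1) * v 1)) * conj (v j) =
        v i.castSucc * conj (v j) := by
      intro j
      have := h3 i j
      rw [Fin.sum_univ_two] at this
      change (u i * conj (u 0)) * (v 0 * conj (v j)) + (u i * conj (u 1)) * (v 1 * conj (v j)) =
        v i.castSucc * conj (v j) at this
      rw [← this]
      ring
    have e0 := e 0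
    have e1 := e 1
    have e2 := e 2
    linear_combination v 0 * e0 + v 1 * e1 + v 2 * e2 -
      (u i * (conj (u 0) * v 0 + conj (u 1) * v 1) - v i.castSucc) * k2
  have h40 : u 0 * (conj (u 0) * v 0 + conj (u 1) * v 1) = v 0 := h4 0
  have h41 : u 1 * (conj (u 0) * v 0 + conj (u 1) * v 1) = v 1 := h4 1
  obtain ⟨c, hc⟩ : ∃ c : ℂ, c = conj (u 0) * v 0 + conj (u 1) * v 1 := ⟨_, rfl⟩
  rw [← hc] at h40 h41
  have hb : bv u (WithLp.toLp 2 ![c, v 2]) = v := by
    refine PiLp.ext fun i => ?_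
    fin_cases i
    · show c * u 0 = v 0
      rw [mul_comm]
      exact h40
    · show c * u 1 = v 1
      rw [mul_comm]
      exact h41
    · rfl
  refine ⟨u, WithLp.toLp 2 ![c, v 2], hu, ?_, ?_⟩
  · refine norm_of_sum ?_
    rw [Fin.sum_univ_two]
    show c * conj c + v 2 * conj (v 2) = 1
    rw [← h40, ← h41, map_mul, map_mul] at k2
    linear_combination k2 - (c * conj c) * k1
  · rw [hb]

theorem bl_top : CompactSpace Bl ∧ ConnectedSpace Bl := by
  have := cs_conn 1
  refine of_surj (fun q : CS 1 × CS 1 => (⟨(vw (bv q.1.1 q.2.1), vw q.1.1),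
    bl_mem (by simp) (by simp)⟩ : Bl)) ?_ ?_
  · refine Continuous.subtype_mk ?_ _
    exact (vw_cont.comp (bv_cont.comp ((continuous_subtype_val.comp continuous_fst).prodMk
      (continuous_subtype_val.comp continuous_snd)))).prodMk
      (vw_cont.comp (continuous_subtype_val.comp continuous_fst))
  · rintro ⟨p, hp⟩
    obtain ⟨u, w, hu, hw, h⟩ := bl_surj hp
    exact ⟨(⟨u, by simpa using hu⟩, ⟨w, by simpa using hw⟩), Subtype.ext h⟩

theorem s2_conn : ConnectedSpace (sphere (0 : EuclideanSpace ℝ (Fin 3)) 1) := by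
  have h : IsConnected (sphere (0 : EuclideanSpace ℝ (Fin 3)) 1) := by
    refine isConnected_sphere ?_ 0 zero_le_one
    rw [← Module.finrank_eq_rank]
    norm_num
  exact Subtype.connectedSpace h

theorem s2s2_top : CompactSpace (sphere (0 : EuclideanSpace ℝ (Fin 3)) 1 ×
      sphere (0 : EuclideanSpace ℝ (Fin 3)) 1) ∧
    ConnectedSpace (sphere (0 : EuclideanSpace ℝ (Fin 3)) 1 ×
      sphere (0 : EuclideanSpace ℝ (Fin 3)) 1) := by
  have := s2_conn
  exact ⟨inferInstance, inferInstance⟩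

end Pool.Agent.L7h32.SX
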